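import Pool.Agent.ASD.Stmts8
import Pool.Agent.ASD.Stmts3

/-!
# Squad ASD, row S2E: the theorem for block idempotents
-/

open scoped BigOperators

noncomputable section

namespace Pool.Agent.PP.SD.H84

open Pool.Agent.Helper51_AWC Pool.Agent.Helper79_WRA Pool.Agent.PP Pool.Agent.PP.KF
open Pool.Agent.PP.K9 Pool.Agent.PP.K9.H97 Pool.Agent.PP.H75 Pool.Agent.PP.T3 Pool.Agent.PP.SO

attribute [local instance] Ideal.Quotient.field

/-- S2E -/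
theorem s2e (esd : EsdStmt) (abd : AbdStmt) (syd : SydStmt) (s2d : S2dStmt)
    (s2a : SO.S2aStmt) : S2eStmt := by
  intro ℓ hℓ M _ hM h5 G _ _ e V γ hL hexp hcd hcomm
  have hl2 : ℓ ≠ 2 := by omega
  obtain ⟨V₀, _, _, E₀, i, hFq, hi, hir, hi1, hi2, hab, hfr⟩ := esd ℓ M hM G e V γ hL hexp hcd
  rcases abd ℓ V₀ E₀ hFq (hab hcomm) with hF | ⟨A₁, A₂, hDx⟩
  · exact s2a ℓ M hM h5 G e V γ hL (hfr hF) hexp hcd
  · subst hir
    obtain ⟨B, rfl, -, -, hB⟩ := syd ℓ M hM V₀ G E₀ hFq e γ i hi hL hi1 hi2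
    exact s2d ℓ M hM hl2 V₀ G E₀ A₁ A₂ hDx B hB

end Pool.Agent.PP.SD.H84
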